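import Pool.Agent.MP_ea150c_mp.H20.SpecR

/-! The large roots of a monic polynomial are the eigenvalues of an integral matrix. -/

namespace Pool.Agent.MP_ea150c_mp.H97

open Polynomial Pool.Agent.MP_ea150c_mp.H20

lemma companion {R : Type} [CommRing R] [Nontrivial R] {g : R[X]} (hg : g.Monic) :
    ∃ (e : ℕ) (Λ : Matrix (Fin e) (Fin e) R), Λ.charpoly = g := by
  refine ⟨_, Algebra.leftMulMatrix (AdjoinRoot.powerBasis' hg).basis
    (AdjoinRoot.powerBasis' hg).gen, ?_⟩
  rw [charpoly_leftMulMatrix]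
  refine (minpoly.unique' R _ hg (by simp) fun q hq => or_iff_not_imp_left.2 fun h0 h => ?_).symm
  have := (AdjoinRoot.powerBasis' hg).dim_le_degree_of_root h0 h
  rw [AdjoinRoot.powerBasis'_dim, ← degree_eq_natDegree hg.ne_zero] at this
  exact absurd hq (not_lt.2 this)

open Classical in
lemma factor (p : ℕ) [Fact p.Prime] (r : ℝ) (f : ℚ_[p][X]) : f ≠ 0 → ∃ g : ℚ_[p][X], g ∣ f ∧
    (g.map (algebraMap ℚ_[p] (Kp p))).roots =
      (f.map (algebraMap ℚ_[p] (Kp p))).roots.filter fun γ => r < ‖γ‖ := by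
  induction f using WfDvdMonoid.induction_on_irreducible with
  | zero => exact fun h => absurd rfl h
  | unit u hu =>
    obtain ⟨c, -, rfl⟩ := Polynomial.isUnit_iff.1 hu
    exact fun _ => ⟨1, one_dvd _, by simp⟩
  | mul a i ha hi ih =>
    intro _
    obtain ⟨g, hg, e⟩ := ih ha
    have hg0 : g ≠ 0 := ne_zero_of_dvd_ne_zero ha hg
    have nz : ∀ {q : ℚ_[p][X]}, q ≠ 0 → (i.map (algebraMap ℚ_[p] (Kp p))) *
        q.map (algebraMap ℚ_[p] (Kp p)) ≠ 0 := fun h =>
      mul_ne_zero (Polynomial.map_ne_zero hi.ne_zero) (Polynomial.map_ne_zero h)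
    have same : ∀ γ ∈ (i.map (algebraMap ℚ_[p] (Kp p))).roots,
        ‖γ‖ = spectralValue (i * C i.leadingCoeff⁻¹) := fun γ h => by
      have h' : aeval γ i = 0 := by
        rw [aeval_def, ← eval_map]
        exact isRoot_of_mem_roots h
      rw [← PadicAlgCl.spectralNorm_eq, spectralNorm, minpoly.eq_of_irreducible hi h']
    by_cases h : r < spectralValue (i * C i.leadingCoeff⁻¹)
    · refine ⟨i * g, mul_dvd_mul_left i hg, ?_⟩
      rw [Polynomial.map_mul, Polynomial.map_mul, roots_mul (nz hg0), roots_mul (nz ha),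
        Multiset.filter_add, ← e, Multiset.filter_eq_self.2 fun γ k => by rwa [same γ k]]
    · refine ⟨g, hg.mul_left i, ?_⟩
      rw [Polynomial.map_mul, roots_mul (nz ha), Multiset.filter_add, ← e,
        Multiset.filter_eq_nil.2 fun γ k => by rwa [same γ k], zero_add]

theorem sFac : SFac := by
  intro p _ f r hf
  obtain ⟨g, hg, e⟩ := factor p r (f.map (algebraMap ℤ_[p] ℚ_[p])) (hf.map _).ne_zero
  have hg0 : g ≠ 0 := ne_zero_of_dvd_ne_zero (hf.map _).ne_zero hg
  obtain ⟨g', hg'⟩ := IsIntegrallyClosed.eq_map_mul_C_of_dvd ℚ_[p] hf hg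
  have hl : g.leadingCoeff ≠ 0 := leadingCoeff_ne_zero.2 hg0
  have hm : g'.Monic := by
    refine monic_of_injective (IsFractionRing.injective ℤ_[p] ℚ_[p]) ?_
    have := congrArg leadingCoeff hg'
    rw [leadingCoeff_mul, leadingCoeff_C] at this
    exact (mul_eq_right₀ hl).1 this
  obtain ⟨n, Λ, hΛ⟩ := companion hm
  refine ⟨n, Λ, ?_⟩
  have c : (algebraMap ℚ_[p] (Kp p)).comp (algebraMap ℤ_[p] ℚ_[p]) = io p :=
    (IsScalarTower.algebraMap_eq _ _ _).symm
  rw [← hg', Polynomial.map_mul, map_map, map_map, c, map_C, mul_comm,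
    roots_C_mul _ (by simpa using hl)] at e
  rw [Matrix.charpoly_map, hΛ, e]

end Pool.Agent.MP_ea150c_mp.H97
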