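import Pool.Agent.MP_ea150c_mp.H97.K3a

/-! The fibre trace K3. -/

namespace Pool.Agent.MP_ea150c_mp.H97

open Pool.Agent.MP_ea150c_mp.H49 Finset

noncomputable section

variable {p : ℕ} [hp : Fact p.Prime]

/-- The terms of the series `lam`. -/
def cc (p : ℕ) [Fact p.Prime] (i : ℕ) : ℤ_[p] := (-1) ^ i * (i.factorial : ℤ_[p]) * kc p i 0 0

theorem cc_dvd (h1 : K1) (h7 : 7 ≤ p) (i : ℕ) : (p : ℤ_[p]) ^ nu i ∣ cc p i :=
  ((h1 p h7 i 0 0).2).mul_left _

theorem norm_le_iff (x : ℤ_[p]) (n : ℕ) : ‖x‖ ≤ (p : ℝ) ^ (-n : ℤ) ↔ (p : ℤ_[p]) ^ n ∣ x := by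
  rw [PadicInt.norm_le_pow_iff_mem_span_pow, Ideal.mem_span_singleton]

theorem cc_summable (h1 : K1) (h7 : 7 ≤ p) : Summable (cc p) := by
  refine NonarchimedeanAddGroup.summable_of_tendsto_cofinite_zero ?_
  rw [Nat.cofinite_eq_atTop]
  have hp1 : (1 : ℝ) < p := by exact_mod_cast hp.out.one_lt
  have hb : ∀ i, ‖cc p i‖ ≤ ((p : ℝ)⁻¹) ^ nu i := by
    intro i
    have := (norm_le_iff (cc p i) (nu i)).2 (cc_dvd h1 h7 i)
    rwa [zpow_neg, zpow_natCast, ← inv_pow] at this
  refine squeeze_zero_norm hb ?_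
  have ht : Filter.Tendsto nu Filter.atTop Filter.atTop :=
    Filter.tendsto_atTop_atTop.2 fun b => ⟨2 * b, fun a h => by unfold nu; omega⟩
  exact (tendsto_pow_atTop_nhds_zero_of_lt_one (by positivity) (inv_lt_one_of_one_lt₀ hp1)).comp ht

theorem lam_approx (h1 : K1) (h7 : 7 ≤ p) (S n : ℕ) (h : S ≤ nu n) :
    (p : ℤ_[p]) ^ S ∣ lam p - ∑ i ∈ range n, cc p i := by
  have e : lam p = ∑' i, cc p i := rfl
  rw [e, ← (cc_summable h1 h7).sum_add_tsum_nat_add n, add_sub_cancel_left, ← norm_le_iff]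
  refine IsUltrametricDist.norm_tsum_le_of_forall_le fun i => ?_
  rw [norm_le_iff]
  exact (pow_dvd_pow _ (by unfold nu at h ⊢; omega)).trans (cc_dvd h1 h7 _)

theorem cc_zero (h1 : K1) (h7 : 7 ≤ p) : ((p - 1).factorial : ℤ_[p]) * cc p 0 = -1 := by
  apply Subtype.ext
  have e := (h1 p h7 0 0 0).1
  have hf : (((p - 1).factorial : ℕ) : ℚ_[p]) ≠ 0 := by exact_mod_cast (Nat.factorial_ne_zero _)
  have e2 : kq p 0 0 0 = -(1 / ((p - 1).factorial : ℚ)) := by
    unfold kq eC
    rw [if_pos (by omega)]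
    simp only [zero_add, mul_one, mul_zero, Nat.sub_zero]
    rw [Nat.div_eq_of_lt (by omega : p - 1 < p)]
    simp
  simp only [cc, pow_zero, Nat.factorial_zero, Nat.cast_one, one_mul]
  push_cast
  rw [e, e2]
  push_cast
  field_simp

theorem lam_one (h1 : K1) (h7 : 7 ≤ p) : (p : ℤ_[p]) ∣ lam p - 1 := by
  have a := lam_approx h1 h7 1 1 (by simp [nu])
  rw [pow_one, sum_range_one] at a
  have w : p ∣ (p - 1).factorial + 1 := by
    rw [← ZMod.natCast_eq_zero_iff]
    push_cast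
    rw [ZMod.wilsons_lemma]
    ring
  have w2 : (p : ℤ_[p]) ∣ ((p - 1).factorial : ℤ_[p]) + 1 := by
    have := Nat.cast_dvd_cast (α := ℤ_[p]) w
    simpa using this
  have e : lam p - 1 = (lam p - cc p 0) + (((p - 1).factorial : ℤ_[p]) + 1) * cc p 0 := by
    linear_combination -cc_zero h1 h7
  rw [e]
  exact dvd_add a (w2.mul_right _)

theorem kc_shift (h1 : K1) (h7 : 7 ≤ p) (i j : ℕ) :
    (-1) ^ (i + j) * ((i + j).factorial : ℤ_[p]) * kc p (i + j) 0 j =
      cc p i * ((i + j).choose j : ℤ_[p]) * (-(p : ℤ_[p])) ^ j := by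
  apply Subtype.ext
  simp only [cc]
  push_cast
  rw [(h1 p h7 (i + j) 0 j).1, (h1 p h7 i 0 0).1]
  have hle : p * j + (0 + 1) ≤ p * (i + j + 1) := by nlinarith
  have hle2 : p * 0 + (0 + 1) ≤ p * (i + 1) := by nlinarith
  have e : p * (i + j + 1) - (0 + 1) - p * j = p * (i + 1) - (0 + 1) - p * 0 := by
    have : p * (i + j + 1) = p * (i + 1) + p * j := by ring
    omega
  have hq : (-1) ^ (i + j) * ((i + j).factorial : ℚ) * kq p (i + j) 0 j =
      (-1) ^ i * (i.factorial : ℚ) * kq p i 0 0 * ((i + j).choose j : ℚ) * (-(p : ℚ)) ^ j := by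
    unfold kq
    rw [if_pos hle, if_pos hle2, e, ← Nat.add_choose_mul_factorial_mul_factorial i j]
    have hf : ((j.factorial : ℕ) : ℚ) ≠ 0 := by exact_mod_cast (Nat.factorial_ne_zero _)
    have hs : (-1 : ℚ) ^ j * (-1) ^ j = 1 := by rw [← mul_pow]; simp
    rw [neg_pow (p : ℚ)]
    simp only [pow_add, Nat.factorial_zero, pow_zero]
    push_cast
    field_simp
    linear_combination (-(((i + j).choose j : ℚ) * eC p (p * (i + 1) - 1 - p * 0))) * hs
  exact_mod_cast congrArg (fun x : ℚ => (x : ℚ_[p])) hq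

section Unit
variable {Q : Type} [CommRing Q] [Algebra ℤ_[p] Q]

theorem kap_dvd (h1 : K1) (h7 : 7 ≤ p) (a b : ℕ) (f G : Q) : (p : Q) ^ nu a ∣ kap p a b f G := by
  unfold kap
  refine Finset.dvd_sum fun j _ => ?_
  rw [Algebra.smul_def]
  have := map_dvd (algebraMap ℤ_[p] Q) (h1 p h7 a b j).2
  rw [map_pow, map_natCast] at this
  exact this.mul_right _

theorem lam_eq (h1 : K1) (h7 : 7 ≤ p) (S M : ℕ) (hM : 2 * S ≤ M) (hS : (p : Q) ^ S = 0)
    (f G g : Q) (hg : (f ^ p - p * G) * g = 1) :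
    f * g * ∑ a ∈ range (M + 1), lf g a * kap p a 0 f G = algebraMap ℤ_[p] Q (lam p) := by
  set x : Q := -(p * G * g) with hx
  have hx1 : f ^ p * g = 1 - x := by rw [hx]; linear_combination hg
  have e1 : ∀ a, f * g * (lf g a * kap p a 0 f G) = ∑ i ∈ range (a + 1),
      algebraMap ℤ_[p] Q (cc p i) * (1 - x) ^ (i + 1) *
        (((i + (a - i)).choose (a - i) : Q) * x ^ (a - i)) := by
    intro a
    unfold kap
    rw [← Finset.sum_flip, Finset.mul_sum, Finset.mul_sum]
    refine Finset.sum_congr rfl fun i hi => ?_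
    obtain ⟨j, rfl⟩ : ∃ j, a = i + j := Nat.exists_eq_add_of_le (by simpa [Nat.lt_succ_iff] using hi)
    rw [Nat.add_sub_cancel_left]
    have e := congrArg (algebraMap ℤ_[p] Q) (kc_shift h1 h7 i j)
    simp only [map_mul, map_pow, map_neg, map_one, map_natCast] at e
    have hn : p * (i + j + 1) - (0 + 1) - p * j + 1 = p * (i + 1) := by
      have h2 : p * (i + j + 1) = p * (i + 1) + p * j := by ring
      have h3 : 1 ≤ p * (i + 1) := by nlinarith
      omega
    have hf : f ^ (p * (i + j + 1) - (0 + 1) - p * j) * f = (f ^ p) ^ (i + 1) := by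
      rw [← pow_succ, hn, pow_mul]
    have hxj : x ^ j = (-(p : Q)) ^ j * G ^ j * g ^ j := by
      rw [hx, ← mul_pow, ← mul_pow]
      congr 1
      ring
    rw [← hx1, hxj, mul_pow, ← hf, Algebra.smul_def]
    unfold lf
    linear_combination (f ^ (p * (i + j + 1) - (0 + 1) - p * j) * f * G ^ j * g ^ (i + j + 1)) * e
  rw [Finset.mul_sum]
  simp only [e1]
  rw [Finset.sum_range_diag_flip (M + 1) (fun i j => algebraMap ℤ_[p] Q (cc p i) *
    (1 - x) ^ (i + 1) * (((i + j).choose j : Q) * x ^ j))]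
  have e2 : ∀ i ∈ range (M + 1), ∑ j ∈ range (M + 1 - i), algebraMap ℤ_[p] Q (cc p i) *
      (1 - x) ^ (i + 1) * (((i + j).choose j : Q) * x ^ j) = algebraMap ℤ_[p] Q (cc p i) := by
    intro i hi
    rw [mem_range] at hi
    rw [← Finset.mul_sum, show M + 1 - i = M - i + 1 by omega]
    obtain ⟨y, hy⟩ := geo_dvd x i (M - i)
    obtain ⟨z, hz⟩ := cc_dvd h1 h7 i
    have hd : (p : Q) ^ S ∣ algebraMap ℤ_[p] Q (cc p i) * x ^ (M - i + 1) := by
      rw [hz, map_mul, map_pow, map_natCast]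
      have h3 : (p : Q) ^ (M - i + 1) ∣ x ^ (M - i + 1) :=
        pow_dvd_pow_of_dvd ⟨-(G * g), by rw [hx]; ring⟩ _
      have h4 : (p : Q) ^ S ∣ (p : Q) ^ nu i * (p : Q) ^ (M - i + 1) := by
        rw [← pow_add]
        exact pow_dvd_pow _ (by unfold nu; omega)
      exact h4.trans (mul_dvd_mul (Dvd.intro _ rfl) h3)
    rw [hS, zero_dvd_iff] at hd
    linear_combination algebraMap ℤ_[p] Q (cc p i) * hy + y * hd
  rw [Finset.sum_congr rfl e2, ← map_sum]
  have hd := map_dvd (algebraMap ℤ_[p] Q) (lam_approx h1 h7 S (M + 1) (by unfold nu; omega))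
  rw [map_pow, map_natCast, hS, zero_dvd_iff, map_sub] at hd
  linear_combination -hd

theorem unit_case (h1 : K1) (h2 : K2) (h7 : 7 ≤ p) (S M : ℕ) (hM : 2 * S ≤ M)
    (hS : (p : Q) ^ S = 0) (k : ℕ) (f G : ℕ → Q)
    (hF : ∀ j < k + 1, f (j + 1) = f j ^ p - p * G j) (hf : f (k + 1) = f 0)
    (hu : ∀ j < k + 1, IsUnit (f j)) :
    (1 - (p : Q) ^ (k + 1)) * Matrix.trace
      (chain (fun j => Matrix.of fun a b : Fin (M + 1) => kap p a b (f j) (G j)) (k + 1)) =
        algebraMap ℤ_[p] Q (lam p) ^ (k + 1) := by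
  have hu' : ∀ j ≤ k + 1, IsUnit (f j) := by
    intro j hj
    rcases Nat.lt_or_eq_of_le hj with h | h
    · exact hu j h
    · rw [h, hf]; exact hu 0 (Nat.succ_pos k)
  have hfg : ∀ j ≤ k + 1, f j * Ring.inverse (f j) = 1 := fun j hj =>
    Ring.mul_inverse_cancel _ (hu' j hj)
  rw [unit_trace (p : Q) M k (fun j a b => kap p a b (f j) (G j)) f
    (fun j => Ring.inverse (f j)) hfg hf (by simp only [hf])]
  · have e : ∀ j ∈ range (k + 1), f j * Ring.inverse (f (j + 1)) *
        ∑ a ∈ range (M + 1), lf (Ring.inverse (f (j + 1))) a * kap p a 0 (f j) (G j) =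
          algebraMap ℤ_[p] Q (lam p) := by
      intro j hj
      rw [mem_range] at hj
      refine lam_eq h1 h7 S M hM hS _ _ _ ?_
      rw [← hF j hj]
      exact hfg (j + 1) hj
    have e2 := Finset.prod_congr rfl e
    rw [Finset.prod_const, card_range, Finset.prod_mul_distrib, Finset.prod_mul_distrib] at e2
    have e3 : (∏ j ∈ range (k + 1), f j) * ∏ j ∈ range (k + 1), Ring.inverse (f (j + 1)) = 1 := by
      have e4 : ∏ j ∈ range (k + 1), f j = ∏ j ∈ range (k + 1), f (j + 1) := by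
        rw [Finset.prod_range_succ', Finset.prod_range_succ, hf]
      rw [e4, ← Finset.prod_mul_distrib]
      exact Finset.prod_eq_one fun j hj => hfg (j + 1) (mem_range.1 hj)
    rw [e3, one_mul] at e2
    exact e2
  · intro j b
    have hd := (pow_dvd_pow (p : Q) (by unfold nu; omega : S ≤ nu M)).trans
      (kap_dvd h1 h7 M b (f j) (G j))
    rwa [hS, zero_dvd_iff] at hd
  · intro j hj a b
    have := (h2 p h7 Q (f j) (G j) a b).2.1
    rw [this, hF j hj]
    unfold kapm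
    by_cases ha : a = 0
    · simp [ha]
    · simp [ha]

theorem kap_map {Q' : Type} [CommRing Q'] [Algebra ℤ_[p] Q'] (q : Q →ₐ[ℤ_[p]] Q') (a b : ℕ)
    (f G : Q) : q (kap p a b f G) = kap p a b (q f) (q G) := by
  unfold kap
  simp

end Unit

theorem exists_gam (n : ℕ) : ∃ c : ℤ_[p], (n.factorial : ℤ_[p]) * c = (p : ℤ_[p]) ^ n := by
  obtain ⟨m, hm⟩ : p ^ padicValNat p n.factorial ∣ n.factorial := pow_padicValNat_dvd
  have hnd : ¬ p ∣ m := by
    rintro ⟨r, rfl⟩
    refine pow_succ_padicValNat_not_dvd (p := p) (Nat.factorial_ne_zero n) ⟨r, ?_⟩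
    rw [pow_succ, mul_assoc]
    exact hm
  have hu : IsUnit (m : ℤ_[p]) := by
    rw [PadicInt.isUnit_iff, PadicInt.norm_natCast_eq_one_iff]
    exact (Nat.Prime.coprime_iff_not_dvd hp.out).2 hnd
  have hd : (n.factorial : ℤ_[p]) ∣ (p : ℤ_[p]) ^ n := by
    have e : (n.factorial : ℤ_[p]) = (p : ℤ_[p]) ^ padicValNat p n.factorial * m := by
      exact_mod_cast congrArg (fun x : ℕ => (x : ℤ_[p])) hm
    rw [e, hu.mul_right_dvd]
    exact pow_dvd_pow _ (padicValNat_factorial_le p n)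
  obtain ⟨c, hc⟩ := hd
  exact ⟨c, hc.symm⟩

/-- The coefficient `p^n / n!`. -/
def gam (p : ℕ) [Fact p.Prime] (n : ℕ) : ℤ_[p] := (exists_gam (p := p) n).choose

theorem gam_spec (n : ℕ) : (n.factorial : ℤ_[p]) * gam p n = (p : ℤ_[p]) ^ n :=
  (exists_gam (p := p) n).choose_spec

/-- The coefficients `(p φ)^n / n!`. -/
def ex (p : ℕ) [Fact p.Prime] {Q : Type} [CommRing Q] [Algebra ℤ_[p] Q] (φ : Q) (n : ℕ) : Q :=
  gam p n • φ ^ n

section Div
variable {W : Type} [CommRing W] [Algebra ℤ_[p] W]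

theorem ex_spec (φ : W) (n : ℕ) : (n.factorial : W) * ex p φ n = ((p : W) * φ) ^ n := by
  have e := congrArg (algebraMap ℤ_[p] W) (gam_spec (p := p) n)
  rw [map_mul, map_pow, map_natCast, map_natCast] at e
  rw [ex, Algebra.smul_def, ← mul_assoc, e, mul_pow]

theorem ex_conv [IsDomain W] [CharZero W] (φ ψ : W) (h : φ + ψ = 0) (n : ℕ) :
    ∑ i ∈ range (n + 1), ex p φ (n - i) * ex p ψ i = if n = 0 then 1 else 0 := by
  have hf : ((n.factorial : ℕ) : W) ≠ 0 := by exact_mod_cast (Nat.factorial_ne_zero _)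
  apply mul_left_cancel₀ hf
  have e : (n.factorial : W) * ∑ i ∈ range (n + 1), ex p φ (n - i) * ex p ψ i =
      ((p : W) * ψ + p * φ) ^ n := by
    rw [add_pow, Finset.mul_sum]
    refine Finset.sum_congr rfl fun i hi => ?_
    rw [← ex_spec, ← ex_spec,
      ← Nat.choose_mul_factorial_mul_factorial (Nat.lt_succ_iff.1 (mem_range.1 hi))]
    push_cast
    ring
  rw [e, show (p : W) * ψ + p * φ = 0 by linear_combination (p : W) * h]
  by_cases hn : n = 0
  · simp [hn]
  · simp [hn]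

theorem kap_field (hq : K2q) (h7 : 7 ≤ p) {K : Type} [Field K] [CharZero K] [Algebra ℤ_[p] K]
    (φ Φ G : K) (h : (p : K) * Φ = (p * φ) ^ p - p * G) (a b : ℕ) :
    kap p a b (p * φ) G = ∑ c ∈ range (a + 1), ex p (-Φ) (a - c) * ((-1) ^ (c + 1) * (p : K) ^ c) *
      (if b ≤ p * (c + 1) - 1 then ex p φ (p * (c + 1) - 1 - b) else 0) := by
  rw [hq p h7 K, ← Finset.sum_flip]
  refine Finset.sum_congr rfl fun c hc => ?_
  obtain ⟨j, rfl⟩ : ∃ j, a = c + j := Nat.exists_eq_add_of_le (by simpa [Nat.lt_succ_iff] using hc)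
  rw [Nat.add_sub_cancel_left, Nat.add_sub_cancel]
  have h2 : p * (c + j + 1) = p * (c + 1) + p * j := by ring
  have h3 : 1 ≤ p * (c + 1) := by nlinarith
  by_cases hb : b ≤ p * (c + 1) - 1
  · rw [if_pos (by omega), if_pos hb,
      show p * (c + j + 1) - (b + 1) - p * j = p * (c + 1) - 1 - b by omega, ← h]
    have e1 := ex_spec (p := p) φ (p * (c + 1) - 1 - b)
    have e2 := ex_spec (p := p) (-Φ) j
    have hf1 : (((p * (c + 1) - 1 - b).factorial : ℕ) : K) ≠ 0 := by
      exact_mod_cast (Nat.factorial_ne_zero _)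
    have hf2 : ((j.factorial : ℕ) : K) ≠ 0 := by exact_mod_cast (Nat.factorial_ne_zero _)
    have e3 : ((p : K) * Φ) ^ j = (-1) ^ j * ((j.factorial : K) * ex p (-Φ) j) := by
      rw [e2, ← mul_pow]
      congr 1
      ring
    have hs : (-1 : K) ^ j * (-1) ^ j = 1 := by rw [← mul_pow]; simp
    rw [e3, ← e1, Rat.smul_def]
    push_cast
    rw [show c + j + 1 = (c + 1) + j by ring, pow_add (-1 : K) (c + 1) j]
    field_simp
    linear_combination ((p : K) ^ c * ex p φ (p * (c + 1) - 1 - b) * ex p (-Φ) j) * hs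
  · rw [if_neg (by omega), if_neg hb, mul_zero]

theorem kap_dom (hq : K2q) (h7 : 7 ≤ p) [IsDomain W] [CharZero W]
    (φ Φ G : W) (h : (p : W) * Φ = (p * φ) ^ p - p * G) (a b : ℕ) :
    kap p a b (p * φ) G = ∑ c ∈ range (a + 1), ex p (-Φ) (a - c) * ((-1) ^ (c + 1) * (p : W) ^ c) *
      (if b ≤ p * (c + 1) - 1 then ex p φ (p * (c + 1) - 1 - b) else 0) := by
  let q : W →ₐ[ℤ_[p]] FractionRing W := IsScalarTower.toAlgHom ℤ_[p] W (FractionRing W)
  have hinj : Function.Injective q := IsFractionRing.injective W (FractionRing W)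
  apply hinj
  have h' : (p : FractionRing W) * q Φ = (p * q φ) ^ p - p * q G := by
    simpa using congrArg q h
  rw [kap_map, map_mul, map_natCast, kap_field hq h7 (q φ) (q Φ) (q G) h', map_sum]
  refine Finset.sum_congr rfl fun c _ => ?_
  by_cases hb : b ≤ p * (c + 1) - 1
  · simp [hb, ex]
  · simp [hb]

/-- The untwisted operator. -/
def ps (p : ℕ) (W : Type) [CommRing W] (N : ℕ) : Matrix (Fin N) (Fin N) W := Matrix.of fun c d =>
  if d.val = p * (c.val + 1) - 1 then (-1) ^ (c.val + 1) * (p : W) ^ c.val else 0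

theorem kap_conj (hq : K2q) (h7 : 7 ≤ p) [IsDomain W] [CharZero W] (S N : ℕ) (hN : p * S ≤ N)
    (φ Φ G : W) (h : (p : W) * Φ = (p * φ) ^ p - p * G) (a b : Fin N) :
    (p : W) ^ S ∣ kap p a b (p * φ) G - (tp N (ex p (-Φ)) * ps p W N * tp N (ex p φ)) a b := by
  have e1 : ∀ c : Fin N, (ps p W N * tp N (ex p φ)) c b =
      if p * (c.val + 1) - 1 < N then ((-1) ^ (c.val + 1) * (p : W) ^ c.val) *
        (if b.val ≤ p * (c.val + 1) - 1 then ex p φ (p * (c.val + 1) - 1 - b) else 0) else 0 := by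
    intro c
    rw [Matrix.mul_apply]
    simp only [ps, tp, Matrix.of_apply]
    by_cases hc : p * (c.val + 1) - 1 < N
    · rw [if_pos hc, Finset.sum_eq_single ⟨_, hc⟩]
      · rw [if_pos rfl]
      · intro d _ hd
        rw [if_neg (fun h => hd (Fin.ext h)), zero_mul]
      · simp
    · rw [if_neg hc]
      refine Finset.sum_eq_zero fun d _ => ?_
      rw [if_neg (by omega), zero_mul]
  rw [Matrix.mul_assoc, Matrix.mul_apply]
  simp only [e1]
  simp only [tp, Matrix.of_apply]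
  rw [Fin.sum_univ_eq_sum_range (fun c => (if c ≤ a.val then ex p (-Φ) (a.val - c) else 0) *
    if p * (c + 1) - 1 < N then ((-1) ^ (c + 1) * (p : W) ^ c) *
        (if b.val ≤ p * (c + 1) - 1 then ex p φ (p * (c + 1) - 1 - b) else 0) else 0),
    kap_dom hq h7 φ Φ G h,
    ← Finset.sum_subset (Finset.range_subset_range.2 (by omega : a.val + 1 ≤ N)),
    ← Finset.sum_sub_distrib]
  · refine Finset.dvd_sum fun c hc => ?_
    rw [mem_range] at hc
    rw [if_pos (by omega : c ≤ a.val)]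
    by_cases hc2 : p * (c + 1) - 1 < N
    · rw [if_pos hc2, mul_assoc, sub_self]
      exact dvd_zero _
    · rw [if_neg hc2, mul_zero, sub_zero]
      have hSc : S ≤ c := by
        by_contra hlt
        have : p * (c + 1) ≤ p * S := Nat.mul_le_mul_left _ (by omega)
        have h3 : 1 ≤ p * (c + 1) := by nlinarith
        omega
      exact (((pow_dvd_pow _ hSc).mul_left _).mul_left _).mul_right _
  · intro c _ hc
    rw [mem_range] at hc
    rw [if_neg (by omega), zero_mul]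

theorem div_case (hq : K2q) (h7 : 7 ≤ p) [IsDomain W] [CharZero W] (S N : ℕ) (hN : p * S ≤ N)
    (k : ℕ) (f G : ℕ → W) (hF : ∀ j < k + 1, f (j + 1) = f j ^ p - p * G j)
    (hf : f (k + 1) = f 0) (hd : ∀ j < k + 1, (p : W) ∣ f j) :
    (p : W) ^ S ∣ Matrix.trace
      (chain (fun j => Matrix.of fun a b : Fin N => kap p a b (f j) (G j)) (k + 1)) := by
  have hφ : ∀ j ≤ k + 1, (p : W) * H49.divp p (f j) = f j := by
    intro j hj
    have h : ∃ y, f j = (p : W) * y := by
      rcases Nat.lt_or_eq_of_le hj with h | h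
      · exact hd j h
      · rw [h, hf]; exact hd 0 (Nat.succ_pos k)
    unfold H49.divp
    rw [dif_pos h]
    exact h.choose_spec.symm
  have h0 : Matrix.trace (chain (fun j => tp N (ex p (-H49.divp p (f (j + 1)))) * ps p W N *
      tp N (ex p (H49.divp p (f j)))) (k + 1)) = 0 := by
    have hE : ∀ j, tp N (ex p (H49.divp p (f j))) * tp N (ex p (-H49.divp p (f j))) = 1 := fun j =>
      tp_mul N _ _ (ex_conv _ _ (add_neg_cancel _))
    have hE' : tp N (ex p (-H49.divp p (f 0))) * tp N (ex p (H49.divp p (f 0))) = 1 :=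
      tp_mul N _ _ (ex_conv _ _ (neg_add_cancel _))
    have hc := chain_conj (fun j => tp N (ex p (H49.divp p (f j))))
      (fun j => tp N (ex p (-H49.divp p (f j)))) (ps p W N) (k + 1) hE
    simp only [hf] at hc
    rw [← Matrix.mul_one (chain _ _), ← hE', ← Matrix.mul_assoc, hc, Matrix.trace_mul_comm,
      ← Matrix.mul_assoc, hE, Matrix.one_mul]
    refine trace_pow_upper _ (fun a b hab => ?_) k
    have h3 : 2 * (a.val + 1) ≤ p * (a.val + 1) := Nat.mul_le_mul_right _ (by omega)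
    have h4 : b.val ≤ a.val := hab
    simp only [ps, Matrix.of_apply]
    rw [if_neg (by omega)]
  have := trace_chain_dvd ((p : W) ^ S)
    (fun j => Matrix.of fun a b : Fin N => kap p a b (f j) (G j))
    (fun j => tp N (ex p (-H49.divp p (f (j + 1)))) * ps p W N * tp N (ex p (H49.divp p (f j)))) (k + 1) ?_
  · rwa [h0, sub_zero] at this
  · intro j hj a b
    have h5 := kap_conj hq h7 S N hN (H49.divp p (f j)) (H49.divp p (f (j + 1))) (G j)
      (by rw [hφ (j + 1) hj, hφ j hj.le, hF j hj]) a b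
    rw [hφ j hj.le] at h5
    exact h5

end Div

theorem k3 (h1 : K1) (h2 : K2) (hq : K2q) : K3 := by
  intro p _ h7
  refine ⟨lam_one h1 h7, fun S => ⟨p * S + 2 * S, fun M hM W _ _ _ _ k hk f G hF hf => ?_⟩⟩
  obtain ⟨k, rfl⟩ : ∃ k', k = k' + 1 := ⟨k - 1, by omega⟩
  refine ⟨fun hu => ?_, fun hd => div_case hq h7 S (M + 1) (by omega) k f G hF hf hd⟩
  let I : Ideal W := Ideal.span {(p : W) ^ S}
  let q : W →ₐ[ℤ_[p]] W ⧸ I := Ideal.Quotient.mkₐ ℤ_[p] I
  have hz : ∀ x : W, q x = 0 ↔ (p : W) ^ S ∣ x := fun x =>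
    Ideal.Quotient.eq_zero_iff_mem.trans Ideal.mem_span_singleton
  have hS : (p : W ⧸ I) ^ S = 0 := by
    have := (hz _).2 dvd_rfl
    rwa [map_pow, map_natCast] at this
  have key := unit_case h1 h2 h7 S M (by omega) hS k (fun j => q (f j)) (fun j => q (G j))
    (fun j hj => by simp only [hF j hj, map_sub, map_mul, map_pow, map_natCast])
    (by simp only [hf]) (fun j hj => (hu j hj).map q)
  rw [← hz]
  have e : q (Matrix.trace (chain (fun j => Matrix.of fun a b : Fin (M + 1) =>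
      kap p a b (f j) (G j)) (k + 1))) = Matrix.trace (chain (fun j => Matrix.of
        fun a b : Fin (M + 1) => kap p a b (q (f j)) (q (G j))) (k + 1)) := by
    have e1 := chain_map (q.mapMatrix (m := Fin (M + 1))).toRingHom.toMonoidHom
      (fun j => Matrix.of fun a b : Fin (M + 1) => kap p a b (f j) (G j)) (k + 1)
    have e2 : (fun j => (q.mapMatrix (m := Fin (M + 1))).toRingHom.toMonoidHom
        (Matrix.of fun a b : Fin (M + 1) => kap p a b (f j) (G j))) =
        fun j => Matrix.of fun a b : Fin (M + 1) => kap p a b (q (f j)) (q (G j)) := by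
      funext j
      ext a b
      exact kap_map q a b (f j) (G j)
    rw [e2] at e1
    rw [← e1]
    simp [Matrix.trace]
  rw [map_sub, map_mul, e, map_sub, map_one, map_pow, map_natCast, key, map_pow, q.commutes,
    sub_self]

end

end Pool.Agent.MP_ea150c_mp.H97
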