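import Pool.Agent.MP_ea150c_mp.H49.SpecK

/-! Matrix lemmas for the fibre trace. -/

namespace Pool.Agent.MP_ea150c_mp.H97

open Pool.Agent.MP_ea150c_mp.H49 Finset

section Chain
variable {R : Type} [Monoid R]

theorem chain_zero (A : ℕ → R) : chain A 0 = 1 := by simp [chain]

theorem chain_succ (A : ℕ → R) (k : ℕ) : chain A (k + 1) = A k * chain A k := by
  simp [chain, List.range_succ]

theorem chain_map {R' : Type} [Monoid R'] (q : R →* R') (A : ℕ → R) (k : ℕ) :
    q (chain A k) = chain (fun j => q (A j)) k := by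
  induction k with
  | zero => simp [chain_zero]
  | succ k ih => rw [chain_succ, chain_succ, map_mul, ih]

theorem chain_conj (E E' : ℕ → R) (ψ : R) (k : ℕ) (h : ∀ j, E j * E' j = 1) :
    chain (fun j => E' (j + 1) * ψ * E j) k * E' 0 = E' k * ψ ^ k := by
  induction k with
  | zero => simp [chain_zero]
  | succ k ih =>
    rw [chain_succ, mul_assoc, ih, pow_succ']
    calc E' (k + 1) * ψ * E k * (E' k * ψ ^ k) = E' (k + 1) * ψ * (E k * E' k) * ψ ^ k := by
          simp only [mul_assoc]
      _ = _ := by rw [h, mul_one, mul_assoc]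

end Chain

section Mat
variable {R n m : Type} [CommRing R] [Fintype n] [DecidableEq n] [Fintype m] [DecidableEq m]

theorem chain_dvd (π : R) (A B : ℕ → Matrix n n R) (k : ℕ)
    (h : ∀ j < k, ∀ a b, π ∣ A j a b - B j a b) : ∀ a b, π ∣ chain A k a b - chain B k a b := by
  induction k with
  | zero => intro a b; simp [chain_zero]
  | succ k ih =>
    intro a b
    rw [chain_succ, chain_succ, Matrix.mul_apply, Matrix.mul_apply, ← Finset.sum_sub_distrib]
    refine Finset.dvd_sum fun c _ => ?_
    have e : A k a c * chain A k c b - B k a c * chain B k c b =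
        (A k a c - B k a c) * chain A k c b + B k a c * (chain A k c b - chain B k c b) := by ring
    rw [e]
    exact dvd_add ((h k (Nat.lt_succ_self k) a c).mul_right _)
      ((ih (fun j hj => h j (Nat.lt_succ_of_lt hj)) c b).mul_left _)

theorem trace_chain_dvd (π : R) (A B : ℕ → Matrix n n R) (k : ℕ)
    (h : ∀ j < k, ∀ a b, π ∣ A j a b - B j a b) :
    π ∣ Matrix.trace (chain A k) - Matrix.trace (chain B k) := by
  unfold Matrix.trace
  rw [← Finset.sum_sub_distrib]
  exact Finset.dvd_sum fun a _ => chain_dvd π A B k h a a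

theorem one_by_one (c : Matrix Unit Unit R) (l : Matrix Unit n R) : c * l = c () () • l := by
  ext a b
  simp [Matrix.mul_apply]

theorem abs_unit (π : R) (k : ℕ) (A : ℕ → Matrix n n R) (A' : ℕ → Matrix m m R)
    (T : ℕ → Matrix n m R) (Rr : ℕ → Matrix m n R) (l : ℕ → Matrix Unit n R)
    (e : Matrix n Unit R)
    (h1 : ∀ j < k, A j * T j = π • (T (j + 1) * A' j))
    (h2 : ∀ j ≤ k, e * l j + T j * Rr j = 1)
    (h3 : Rr 0 * T 0 = 1) (h4 : ∀ j ≤ k, l j * T j = 0) (h5 : (l 0 * e) () () = 1)
    (hT : T k = T 0) (hl : l k = l 0) :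
    Matrix.trace (chain A k) =
      ∏ j ∈ range k, (l (j + 1) * A j * e) () () + π ^ k * Matrix.trace (chain A' k) := by
  have a1 : ∀ i ≤ k, chain A i * T 0 = π ^ i • (T i * chain A' i) := by
    intro i
    induction i with
    | zero => intro _; simp [chain_zero]
    | succ i ih =>
      intro hi
      rw [chain_succ, chain_succ, Matrix.mul_assoc, ih (by omega), Matrix.mul_smul,
        ← Matrix.mul_assoc, h1 i (by omega), Matrix.smul_mul, smul_smul, Matrix.mul_assoc,
        pow_succ]
  have a2 : ∀ i < k, l (i + 1) * A i = (l (i + 1) * A i * e) () () • l i := by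
    intro i hi
    calc l (i + 1) * A i = l (i + 1) * A i * (e * l i + T i * Rr i) := by
          rw [h2 i hi.le, Matrix.mul_one]
      _ = l (i + 1) * A i * e * l i + l (i + 1) * (A i * T i) * Rr i := by
          simp only [Matrix.mul_add, Matrix.mul_assoc]
      _ = _ := by
          rw [h1 i hi, Matrix.mul_smul, ← Matrix.mul_assoc, h4 (i + 1) hi, Matrix.zero_mul,
            smul_zero, Matrix.zero_mul, add_zero, one_by_one]
  have a3 : ∀ i ≤ k, l i * chain A i = (∏ j ∈ range i, (l (j + 1) * A j * e) () ()) • l 0 := by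
    intro i
    induction i with
    | zero => intro _; simp [chain_zero]
    | succ i ih =>
      intro hi
      rw [chain_succ, ← Matrix.mul_assoc, a2 i (by omega), Matrix.smul_mul, ih (by omega),
        smul_smul, prod_range_succ, mul_comm]
  calc Matrix.trace (chain A k) = Matrix.trace (chain A k * (e * l 0 + T 0 * Rr 0)) := by
        rw [h2 0 (Nat.zero_le k), Matrix.mul_one]
    _ = Matrix.trace (l k * chain A k * e) + Matrix.trace (chain A k * T 0 * Rr 0) := by
        rw [Matrix.mul_add, Matrix.trace_add, ← Matrix.mul_assoc, ← Matrix.mul_assoc,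
          Matrix.trace_mul_comm (chain A k * e), hl]
        simp only [Matrix.mul_assoc]
    _ = _ := by
        rw [a3 k le_rfl, a1 k le_rfl, Matrix.smul_mul, Matrix.smul_mul, Matrix.trace_smul,
          Matrix.trace_smul, hT, Matrix.mul_assoc, Matrix.trace_mul_comm (T 0),
          Matrix.mul_assoc, h3, Matrix.mul_one]
        have : Matrix.trace (l 0 * e) = 1 := by simpa [Matrix.trace] using h5
        rw [this]
        simp

theorem trace_chain_fac (I : Matrix n m R) (Ar : ℕ → Matrix m n R) (k : ℕ) :
    Matrix.trace (chain (fun j => I * Ar j) (k + 1)) =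
      Matrix.trace (chain (fun j => Ar j * I) (k + 1)) := by
  have a1 : ∀ i, chain (fun j => I * Ar j) i * I = I * chain (fun j => Ar j * I) i := by
    intro i
    induction i with
    | zero => simp [chain_zero]
    | succ i ih =>
      rw [chain_succ, chain_succ, Matrix.mul_assoc, ih]
      simp only [Matrix.mul_assoc]
  rw [chain_succ, chain_succ, Matrix.mul_assoc, Matrix.trace_mul_comm, Matrix.mul_assoc, a1,
    Matrix.mul_assoc]

theorem trace_pow_upper {N : ℕ} (ψ : Matrix (Fin N) (Fin N) R)
    (h : ∀ a b, b ≤ a → ψ a b = 0) (k : ℕ) : Matrix.trace (ψ ^ (k + 1)) = 0 := by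
  have a1 : ∀ i, ∀ a b, b ≤ a → (ψ ^ (i + 1)) a b = 0 := by
    intro i
    induction i with
    | zero => simpa using h
    | succ i ih =>
      intro a b hab
      rw [pow_succ, Matrix.mul_apply]
      refine Finset.sum_eq_zero fun c _ => ?_
      rcases le_total c a with hc | hc
      · rw [ih a c hc, zero_mul]
      · rw [h c b (hab.trans hc), mul_zero]
  exact Finset.sum_eq_zero fun a _ => a1 k a a le_rfl

end Mat

section Conc
variable {R : Type} [CommRing R]

/-- The functional killing the image of the Euler operator. -/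
def lf (g : R) (b : ℕ) : R := (-1) ^ b * (b.factorial : R) * g ^ b

/-- The retraction of the Euler operator. -/
def rf (g : R) (a : ℕ) : ℕ → R
  | 0 => 0
  | b + 1 => g * ((if a = b then 1 else 0) - ((b + 1 : ℕ) : R) * rf g a b)

theorem lf_succ (g : R) (b : ℕ) : lf g (b + 1) = -(((b + 1 : ℕ) : R) * g * lf g b) := by
  unfold lf
  rw [Nat.factorial_succ]
  push_cast
  ring

theorem rf_zero (g : R) (a b : ℕ) (h : b ≤ a) : rf g a b = 0 := by
  induction b with
  | zero => rfl
  | succ b ih => rw [rf, ih (by omega), if_neg (by omega)]; simp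

theorem split_id (f g : R) (h : f * g = 1) (a b : ℕ) :
    (if a = 0 then lf g b else 0) + (((a + 1 : ℕ) : R) * rf g a b +
      if a = 0 then 0 else f * rf g (a - 1) b) = if a = b then 1 else 0 := by
  induction b with
  | zero => by_cases ha : a = 0 <;> simp [ha, lf, rf]
  | succ b ih =>
    rw [lf_succ, rf, rf]
    by_cases ha : a = 0
    · subst ha
      simp only [if_true] at ih ⊢
      rw [if_neg (by omega : ¬ 0 = b + 1)]
      by_cases hb : 0 = b
      · subst hb
        simp [lf, rf]
      · rw [if_neg hb] at ih ⊢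
        linear_combination (-((b + 1 : ℕ) : R) * g) * ih
    · simp only [if_neg ha] at ih ⊢
      by_cases hb : a = b
      · subst hb
        rw [if_pos rfl] at ih
        rw [if_pos rfl, if_neg (by omega : ¬ a - 1 = a), if_neg (by omega : ¬ a = a + 1)]
        linear_combination (-((a + 1 : ℕ) : R) * g) * ih
      · rw [if_neg hb] at ih ⊢
        by_cases hc : a = b + 1
        · rw [if_pos (by omega : a - 1 = b), if_pos hc]
          linear_combination (-((b + 1 : ℕ) : R) * g) * ih + h
        · rw [if_neg (by omega : ¬ a - 1 = b), if_neg hc]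
          linear_combination (-((b + 1 : ℕ) : R) * g) * ih

/-- The truncated Euler operator. -/
def Tm (M : ℕ) (f : R) : Matrix (Fin (M + 1)) (Fin M) R := Matrix.of fun a m =>
  (if a.val = m.val then ((m.val + 1 : ℕ) : R) else 0) + if a.val = m.val + 1 then f else 0

theorem sum_mul_Tm (M : ℕ) (f : R) (w : ℕ → R) (m : Fin M) :
    ∑ a : Fin (M + 1), w a.val * Tm M f a m = ((m.val + 1 : ℕ) : R) * w m + f * w (m + 1) := by
  simp only [Tm, Matrix.of_apply, mul_add, Finset.sum_add_distrib]
  congr 1
  · rw [Finset.sum_eq_single m.castSucc]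
    · simp [mul_comm]
    · intro b _ hb
      rw [if_neg (fun h => hb (Fin.ext (by simpa using h))), mul_zero]
    · simp
  · rw [Finset.sum_eq_single m.succ]
    · simp [mul_comm]
    · intro b _ hb
      rw [if_neg (fun h => hb (Fin.ext (by simpa using h))), mul_zero]
    · simp

theorem sum_Tm_mul (M : ℕ) (f : R) (v : ℕ → R) (hv : v M = 0) (a : Fin (M + 1)) :
    ∑ m : Fin M, Tm M f a m * v m.val =
      ((a.val + 1 : ℕ) : R) * v a + if a.val = 0 then 0 else f * v (a - 1) := by
  simp only [Tm, Matrix.of_apply, add_mul, Finset.sum_add_distrib]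
  congr 1
  · by_cases ha : a.val < M
    · rw [Finset.sum_eq_single ⟨a.val, ha⟩]
      · simp
      · intro b _ hb
        rw [if_neg (fun h => hb (Fin.ext (by simpa using h.symm))), zero_mul]
      · simp
    · have h1 : a.val = M := by omega
      rw [h1, hv, mul_zero]
      refine Finset.sum_eq_zero fun b _ => ?_
      rw [if_neg (by omega), zero_mul]
  · by_cases ha : a.val = 0
    · rw [if_pos ha]
      refine Finset.sum_eq_zero fun b _ => ?_
      rw [if_neg (by omega), zero_mul]
    · rw [if_neg ha, Finset.sum_eq_single ⟨a.val - 1, by omega⟩]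
      · rw [if_pos (by simp only; omega)]
      · intro b _ hb
        rw [if_neg (fun h => hb (Fin.ext (by simp only; omega))), zero_mul]
      · simp

/-- The unit case for an abstract kernel. -/
theorem unit_trace (π : R) (M k : ℕ) (κ : ℕ → ℕ → ℕ → R) (f g : ℕ → R)
    (hfg : ∀ j ≤ k + 1, f j * g j = 1) (hf : f (k + 1) = f 0) (hg : g (k + 1) = g 0)
    (hz : ∀ j b, κ j M b = 0)
    (hE : ∀ j < k + 1, ∀ a b, ((b + 1 : ℕ) : R) * κ j a b + f j * κ j a (b + 1) =
      π * (((a + 1 : ℕ) : R) * κ j a b + if a = 0 then 0 else f (j + 1) * κ j (a - 1) b)) :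
    (1 - π ^ (k + 1)) * Matrix.trace
        (chain (fun j => Matrix.of fun a b : Fin (M + 1) => κ j a b) (k + 1)) =
      ∏ j ∈ range (k + 1), ∑ a ∈ range (M + 1), lf (g (j + 1)) a * κ j a 0 := by
  let I : Matrix (Fin (M + 1)) (Fin M) R := Matrix.of fun a m => if a = m.castSucc then 1 else 0
  let Ar : ℕ → Matrix (Fin M) (Fin (M + 1)) R := fun j => Matrix.of fun a b => κ j a b
  have hA : (fun j => Matrix.of fun a b : Fin (M + 1) => κ j a b) = fun j => I * Ar j := by
    funext j
    ext a b
    simp only [I, Ar, Matrix.mul_apply, Matrix.of_apply]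
    by_cases ha : a.val < M
    · rw [Finset.sum_eq_single ⟨a.val, ha⟩]
      · rw [if_pos (Fin.ext (by simp)), one_mul]
      · intro c _ hc
        rw [if_neg (fun h => hc (Fin.ext (by simp [h]))), zero_mul]
      · simp
    · have h1 : a.val = M := by omega
      rw [h1, hz]
      refine (Finset.sum_eq_zero fun c _ => ?_).symm
      rw [if_neg, zero_mul]
      intro h
      rw [h] at h1
      simp at h1
      omega
  have hA' : (fun j => Matrix.of fun a b : Fin M => κ j a b) = fun j => Ar j * I := by
    funext j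
    ext a b
    simp [I, Ar, Matrix.mul_apply]
  have key := abs_unit π (k + 1) (fun j => Matrix.of fun a b : Fin (M + 1) => κ j a b)
    (fun j => Matrix.of fun a b : Fin M => κ j a b) (fun j => Tm M (f j))
    (fun j => Matrix.of fun a b => rf (g j) a.val b.val)
    (fun j => Matrix.of fun _ b => lf (g j) b.val)
    (Matrix.of fun a _ => if a.val = 0 then 1 else 0) ?_ ?_ ?_ ?_ ?_ (by simp only [hf])
    (by simp only [hg])
  · have e1 : Matrix.trace (chain (fun j => Matrix.of fun a b : Fin M => κ j a b) (k + 1)) =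
        Matrix.trace (chain (fun j => Matrix.of fun a b : Fin (M + 1) => κ j a b) (k + 1)) := by
      rw [hA, hA', trace_chain_fac]
    rw [e1] at key
    have e2 : ∀ j, ((Matrix.of fun (_ : Unit) (b : Fin (M + 1)) => lf (g (j + 1)) b.val) *
        (Matrix.of fun a b : Fin (M + 1) => κ j a b) *
        (Matrix.of fun (a : Fin (M + 1)) (_ : Unit) => if a.val = 0 then (1 : R) else 0)) () () =
        ∑ a ∈ range (M + 1), lf (g (j + 1)) a * κ j a 0 := by
      intro j
      rw [Matrix.mul_apply, Finset.sum_eq_single 0]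
      · rw [Matrix.mul_apply, ← Fin.sum_univ_eq_sum_range (fun a => lf (g (j + 1)) a * κ j a 0)]
        simp
      · intro b _ hb
        rw [Matrix.of_apply, if_neg (fun h => hb (Fin.ext (by simpa using h))), mul_zero]
      · simp
    simp only [e2] at key
    linear_combination key
  · intro j hj
    ext a m
    rw [Matrix.smul_apply, Matrix.mul_apply, Matrix.mul_apply, smul_eq_mul]
    simp only [Matrix.of_apply]
    rw [sum_mul_Tm M (f j) (fun b => κ j a b) m,
      sum_Tm_mul M (f (j + 1)) (fun c => κ j c m) (hz j m) a]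
    exact hE j hj a m
  · intro j hj
    ext a b
    rw [Matrix.add_apply, Matrix.mul_apply, Matrix.mul_apply]
    simp only [Matrix.of_apply]
    rw [sum_Tm_mul M (f j) (fun c => rf (g j) c b) (rf_zero _ _ _ (by omega)) a,
      Matrix.one_apply]
    have := split_id (f j) (g j) (hfg j hj) a b
    simp only [Fin.ext_iff]
    rw [← this]
    simp
  · ext a m
    rw [Matrix.mul_apply]
    simp only [Matrix.of_apply]
    rw [sum_mul_Tm M (f 0) (fun b => rf (g 0) a b) m, rf, Matrix.one_apply]
    simp only [Fin.ext_iff]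
    linear_combination ((if a.val = m.val then (1 : R) else 0) -
      ((m.val + 1 : ℕ) : R) * rf (g 0) a m) * hfg 0 (Nat.zero_le _)
  · intro j hj
    ext a m
    rw [Matrix.mul_apply]
    simp only [Matrix.of_apply]
    rw [sum_mul_Tm M (f j) (fun b => lf (g j) b) m, lf_succ, Matrix.zero_apply]
    linear_combination (-((m.val + 1 : ℕ) : R) * lf (g j) m) * hfg j hj
  · rw [Matrix.mul_apply, Finset.sum_eq_single 0]
    · simp [lf]
    · intro b _ hb
      rw [Matrix.of_apply, Matrix.of_apply, if_neg (fun h => hb (Fin.ext (by simpa using h))),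
        mul_zero]
    · simp

theorem geo_step (x : R) (i J : ℕ) :
    (1 - x) * ∑ j ∈ range (J + 1), ((i + 1 + j).choose j : R) * x ^ j =
      ∑ j ∈ range (J + 1), ((i + j).choose j : R) * x ^ j -
        ((i + 1 + J).choose J : R) * x ^ (J + 1) := by
  induction J with
  | zero => simp
  | succ J ih =>
    rw [sum_range_succ, mul_add, ih, sum_range_succ _ (J + 1)]
    have e : ((i + 1 + (J + 1)).choose (J + 1) : R) =
        ((i + 1 + J).choose J : R) + ((i + (J + 1)).choose (J + 1) : R) := by
      rw [show i + 1 + (J + 1) = (i + 1 + J) + 1 by ring, Nat.choose_succ_succ',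
        show i + (J + 1) = i + 1 + J by ring]
      push_cast
      ring
    rw [e]
    ring

theorem geo_dvd (x : R) (i J : ℕ) :
    x ^ (J + 1) ∣ (1 - x) ^ (i + 1) * ∑ j ∈ range (J + 1), ((i + j).choose j : R) * x ^ j - 1 := by
  induction i with
  | zero =>
    have e : (1 - x) ^ (0 + 1) * ∑ j ∈ range (J + 1), ((0 + j).choose j : R) * x ^ j - 1 =
        x ^ (J + 1) * (-1) := by
      simp only [zero_add, Nat.choose_self, Nat.cast_one, one_mul, pow_one]
      rw [mul_neg_geom_sum]
      ring
    exact ⟨_, e⟩
  | succ i ih =>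
    have e : (1 - x) ^ (i + 1 + 1) * ∑ j ∈ range (J + 1), ((i + 1 + j).choose j : R) * x ^ j - 1 =
        ((1 - x) ^ (i + 1) * ∑ j ∈ range (J + 1), ((i + j).choose j : R) * x ^ j - 1) -
          x ^ (J + 1) * ((1 - x) ^ (i + 1) * ((i + 1 + J).choose J : R)) := by
      rw [pow_succ (1 - x) (i + 1), mul_assoc, geo_step]
      ring
    rw [e]
    exact dvd_sub ih (Dvd.intro _ rfl)

/-- Lower triangular Toeplitz matrices. -/
def tp (N : ℕ) (u : ℕ → R) : Matrix (Fin N) (Fin N) R := Matrix.of fun a b =>
  if b.val ≤ a.val then u (a.val - b.val) else 0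

theorem tp_mul (N : ℕ) (u v : ℕ → R)
    (h : ∀ n, ∑ i ∈ range (n + 1), u (n - i) * v i = if n = 0 then 1 else 0) :
    tp N u * tp N v = 1 := by
  ext a b
  rw [Matrix.mul_apply, Matrix.one_apply]
  simp only [tp, Matrix.of_apply]
  rw [Fin.sum_univ_eq_sum_range (fun c => (if c ≤ a.val then u (a.val - c) else 0) *
    (if b.val ≤ c then v (c - b.val) else 0))]
  by_cases hab : b.val ≤ a.val
  · have e : ∑ c ∈ range N, (if c ≤ a.val then u (a.val - c) else 0) *
        (if b.val ≤ c then v (c - b.val) else 0) =
        ∑ c ∈ Ico b.val (a.val + 1), u (a.val - c) * v (c - b.val) := by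
      symm
      refine Finset.sum_subset_zero_on_sdiff ?_ ?_ ?_
      · intro c hc
        rw [mem_Ico] at hc
        rw [mem_range]
        omega
      · intro c hc
        rw [mem_sdiff, mem_Ico] at hc
        by_cases h1 : c ≤ a.val
        · rw [if_neg (by omega : ¬ b.val ≤ c), mul_zero]
        · rw [if_neg h1, zero_mul]
      · intro c hc
        rw [mem_Ico] at hc
        rw [if_pos (by omega), if_pos hc.1]
    rw [e, Finset.sum_Ico_eq_sum_range, show a.val + 1 - b.val = a.val - b.val + 1 by omega]
    have e2 : ∀ i, u (a.val - (b.val + i)) * v (b.val + i - b.val) = u (a.val - b.val - i) * v i := by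
      intro i
      rw [Nat.add_sub_cancel_left, Nat.sub_add_eq]
    simp only [e2]
    rw [h]
    simp only [Fin.ext_iff]
    by_cases h1 : a.val = b.val
    · rw [if_pos (by omega), if_pos h1]
    · rw [if_neg (by omega), if_neg h1]
  · rw [if_neg (fun h => hab (by rw [h]))]
    refine Finset.sum_eq_zero fun c _ => ?_
    by_cases h1 : c ≤ a.val
    · rw [if_neg (by omega : ¬ b.val ≤ c), mul_zero]
    · rw [if_neg h1, zero_mul]

end Conc

end Pool.Agent.MP_ea150c_mp.H97
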